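import Pool.Agent.H88.CR.Targets

/-!
Row LCA of `cvr_modules`: a locally uniformly convex space has the local defect property.
-/

set_option autoImplicit false

open Filter Topology Set

namespace Pool.Agent.H5.CVR

open Pool.Agent.H85.WMP Pool.Agent.H88.WR Pool.Agent.H88.CR

/-- LCA -/
theorem pf_LCA (𝕜 : Type) [RCLike 𝕜] : T_LCA 𝕜 := by
  intro F _ _ hL x ε hε
  by_cases hx : x = 0
  · refine ⟨ε ^ 2, by positivity, ?_⟩
    intro y hy
    rw [hx] at hy ⊢
    have h1 : Df (0 : F) y = ‖y‖ ^ 2 := by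
      unfold Df
      rw [norm_zero, zero_add]
      ring
    rw [h1] at hy
    rw [zero_sub, norm_neg]
    exact lt_of_pow_lt_pow_left₀ 2 hε.le hy
  · have ha : 0 < ‖x‖ := norm_pos_iff.2 hx
    set a : ℝ := ‖x‖ with hadef
    have hnu : ‖((a⁻¹ : ℝ) : 𝕜) • x‖ = 1 := by
      rw [norm_smul, RCLike.norm_ofReal, abs_of_pos (inv_pos.2 ha), ← hadef]
      exact inv_mul_cancel₀ ha.ne'
    obtain ⟨d, hd, hLd⟩ := hL (((a⁻¹ : ℝ) : 𝕜) • x) hnu (ε / (2 * a)) (by positivity)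
    set u : F := ((a⁻¹ : ℝ) : 𝕜) • x with hudef
    have hau : ((a : ℝ) : 𝕜) • u = x := by
      rw [hudef, smul_smul, ← RCLike.ofReal_mul, mul_inv_cancel₀ ha.ne', RCLike.ofReal_one,
        one_smul]
    obtain ⟨s0, hs0, hs1, hs2, hs3⟩ : ∃ s0 : ℝ, 0 < s0 ∧ s0 ≤ ε / 2 ∧ s0 ≤ a * d / 4 ∧
        s0 ≤ a / 2 :=
      ⟨min (ε / 2) (min (a * d / 4) (a / 2)),
        lt_min (by positivity) (lt_min (by positivity) (by positivity)), min_le_left _ _,
        (min_le_right _ _).trans (min_le_left _ _), (min_le_right _ _).trans (min_le_right _ _)⟩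
    refine ⟨min (s0 ^ 2) (a ^ 2 * d / 2), lt_min (by positivity) (by positivity), ?_⟩
    intro y hy
    by_contra hcon
    rw [not_lt] at hcon
    have hy1 : Df x y < s0 ^ 2 := lt_of_lt_of_le hy (min_le_left _ _)
    have hy2 : Df x y < a ^ 2 * d / 2 := lt_of_lt_of_le hy (min_le_right _ _)
    have hDf : Df x y = (a - ‖y‖) ^ 2 + ((a + ‖y‖) ^ 2 - ‖x + y‖ ^ 2) := by
      unfold Df
      rw [← hadef]
      ring
    have htri : ‖x + y‖ ≤ a + ‖y‖ := norm_add_le x y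
    have hpos : 0 ≤ (a + ‖y‖) ^ 2 - ‖x + y‖ ^ 2 := by
      have := pow_le_pow_left₀ (norm_nonneg (x + y)) htri 2
      linarith
    have hs : |a - ‖y‖| < s0 := by
      have h1 : (a - ‖y‖) ^ 2 < s0 ^ 2 := by linarith
      exact abs_lt_of_sq_lt_sq h1 hs0.le
    obtain ⟨hl, hr⟩ := abs_lt.1 hs
    have hb : 0 < ‖y‖ := by linarith
    set b : ℝ := ‖y‖ with hbdef
    have hnv : ‖((b⁻¹ : ℝ) : 𝕜) • y‖ = 1 := by
      rw [norm_smul, RCLike.norm_ofReal, abs_of_pos (inv_pos.2 hb), ← hbdef]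
      exact inv_mul_cancel₀ hb.ne'
    set v : F := ((b⁻¹ : ℝ) : 𝕜) • y with hvdef
    have hbv : ((b : ℝ) : 𝕜) • v = y := by
      rw [hvdef, smul_smul, ← RCLike.ofReal_mul, mul_inv_cancel₀ hb.ne', RCLike.ofReal_one,
        one_smul]
    have hab : ‖(((b - a : ℝ)) : 𝕜) • v‖ = |a - b| := by
      rw [norm_smul, RCLike.norm_ofReal, hnv, mul_one, abs_sub_comm]
    have e1 : ((a : ℝ) : 𝕜) • (u - v) = (x - y) + (((b - a : ℝ)) : 𝕜) • v := by
      rw [smul_sub, hau, RCLike.ofReal_sub, sub_smul, hbv]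
      abel
    have e2 : x + y = ((a : ℝ) : 𝕜) • (u + v) + (((b - a : ℝ)) : 𝕜) • v := by
      rw [smul_add, hau, RCLike.ofReal_sub, sub_smul, hbv]
      abel
    have hna : ∀ w : F, ‖((a : ℝ) : 𝕜) • w‖ = a * ‖w‖ := by
      intro w
      rw [norm_smul, RCLike.norm_ofReal, abs_of_pos ha]
    have h1 : ε / (2 * a) ≤ ‖u - v‖ := by
      have h2 : ‖x - y‖ - |a - b| ≤ a * ‖u - v‖ := by
        rw [← hna, e1, ← hab]
        have := norm_sub_le ((x - y) + (((b - a : ℝ)) : 𝕜) • v) ((((b - a : ℝ)) : 𝕜) • v)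
        rw [add_sub_cancel_right] at this
        linarith
      rw [div_le_iff₀ (by positivity)]
      nlinarith
    have h3 := hLd v hnv h1
    have h4 : ‖x + y‖ ≤ a * (2 - d) + |a - b| := by
      rw [e2]
      refine (norm_add_le _ _).trans ?_
      rw [hna, hab]
      have := mul_le_mul_of_nonneg_left h3 ha.le
      linarith
    have habs : a - b ≤ |a - b| := le_abs_self _
    have h5 : a * d / 2 ≤ a + b - ‖x + y‖ := by nlinarith
    have h6 : a ^ 2 * d / 2 ≤ (a + b) ^ 2 - ‖x + y‖ ^ 2 := by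
      have h7 : (a + b) ^ 2 - ‖x + y‖ ^ 2 = (a + b - ‖x + y‖) * (a + b + ‖x + y‖) := by ring
      rw [h7]
      have h8 : a ≤ a + b + ‖x + y‖ := by
        have := norm_nonneg (x + y)
        linarith
      have h9 := mul_le_mul h5 h8 ha.le (le_trans (by positivity) h5)
      nlinarith
    nlinarith [sq_nonneg (a - b)]

end Pool.Agent.H5.CVR
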